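import Mathlib
import Pool.Agent.X102.HCSol

set_option autoImplicit false

open Filter Topology Set Metric Laplacian InnerProductSpace
open Pool.Agent.X102 Pool.Agent.X102.HC

namespace Pool.Agent.Results.MP_ac8703_an.SignChanging

/-- `u` is a solution, smooth up to the boundary, of
`-Δu = lam c u + μ |∇u|² + h` in `Ω`, `u = 0` on `∂Ω`. -/
def Solves (Ω : Set ℂ) (c μ h : ℂ → ℝ) (lam : ℝ) (u : ℂ → ℝ) : Prop :=
  ContDiff ℝ (⊤ : ℕ∞) u ∧ (∀ z ∈ frontier Ω, u z = 0) ∧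
    ∀ z ∈ Ω, - Δ u z = lam * c z * u z + μ z * ‖gradient u z‖ ^ 2 + h z

/-- cubic polynomial -/
noncomputable def cub (a b c d t : ℝ) : ℝ := a + b * t + c * t ^ 2 + d * t ^ 3

lemma hasDerivAt_cub (a b c d t : ℝ) :
    HasDerivAt (cub a b c d) (cub b (2 * c) (3 * d) 0 t) t := by
  unfold cub
  have h := ((((hasDerivAt_id t).const_mul b).const_add a).add ((hasDerivAt_pow 2 t).const_mul c)).add
    ((hasDerivAt_pow 3 t).const_mul d)
  refine h.congr_deriv ?_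
  norm_num
  ring

lemma contDiff_cub (a b c d : ℝ) {n : WithTop ℕ∞} :
    ContDiff ℝ n (fun z : ℂ => cub a b c d (z.re ^ 2 + z.im ^ 2)) := by
  have h1 : ContDiff ℝ n (fun z : ℂ => z.re) := Complex.reCLM.contDiff
  have h2 : ContDiff ℝ n (fun z : ℂ => z.im) := Complex.imCLM.contDiff
  unfold cub
  fun_prop

/-- the solution for `lam = 0` -/
noncomputable def u0 (z : ℂ) : ℝ :=
  cub (2263 / 9000) (-(763 / 1500)) (1069 / 3000) (-(223 / 2250)) (z.re ^ 2 + z.im ^ 2)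

/-- the solution for `lam = -1` -/
noncomputable def u (z : ℂ) : ℝ := cub (1 / 150) (-(1 / 50)) (1 / 75) 0 (z.re ^ 2 + z.im ^ 2)

/-- the weight -/
noncomputable def c (z : ℂ) : ℝ :=
  cub (1466 / 5) (-(369769 / 3750)) (327587 / 3750) (-(49729 / 1875)) (z.re ^ 2 + z.im ^ 2)

/-- the right-hand side -/
noncomputable def h (z : ℂ) : ℝ :=
  -(4 * (cub (-(763 / 1500)) (2 * (1069 / 3000)) (3 * (-(223 / 2250))) 0 (z.re ^ 2 + z.im ^ 2)
    + (z.re ^ 2 + z.im ^ 2) * cub (2 * (1069 / 3000)) (2 * (3 * (-(223 / 2250)))) 0 0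
      (z.re ^ 2 + z.im ^ 2)))
  - 4 * (z.re ^ 2 + z.im ^ 2)
    * cub (-(763 / 1500)) (2 * (1069 / 3000)) (3 * (-(223 / 2250))) 0 (z.re ^ 2 + z.im ^ 2) ^ 2

lemma lap_cub (a b c d : ℝ) (z : ℂ) :
    (Δ (fun z : ℂ => cub a b c d (z.re ^ 2 + z.im ^ 2)) : ℂ → ℝ) z
      = 4 * (cub b (2 * c) (3 * d) 0 (z.re ^ 2 + z.im ^ 2)
        + (z.re ^ 2 + z.im ^ 2) * cub (2 * c) (2 * (3 * d)) 0 0 (z.re ^ 2 + z.im ^ 2)) := by
  refine radial_laplacian (P := cub a b c d) (P' := cub b (2 * c) (3 * d) 0)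
    (P'' := cub (2 * c) (2 * (3 * d)) 0 0) (fun t => hasDerivAt_cub a b c d t) (fun t => ?_)
    (contDiff_cub a b c d) z
  have := hasDerivAt_cub b (2 * c) (3 * d) 0 t
  rwa [mul_zero] at this

/-- The classical form of the example. -/
theorem classical : ∃ c h u₀ u : ℂ → ℝ,
    ContDiff ℝ (⊤ : ℕ∞) c ∧ (∀ z ∈ closedBall (0 : ℂ) 1, 0 < c z) ∧ ContDiff ℝ (⊤ : ℕ∞) h ∧
    Solves (ball 0 1) c (fun _ => 1) h 0 u₀ ∧ (∀ z ∈ ball (0 : ℂ) 1, 0 < u₀ z) ∧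
    Solves (ball 0 1) c (fun _ => 1) h (-1) u ∧ ∃ z ∈ ball (0 : ℂ) 1, u z < 0 := by
  have hsq : ∀ z : ℂ, z.re ^ 2 + z.im ^ 2 = ‖z‖ ^ 2 := by
    intro z; rw [← Complex.normSq_eq_norm_sq, Complex.normSq_apply]; ring
  have hfr : ∀ z ∈ frontier (ball (0 : ℂ) 1), z.re ^ 2 + z.im ^ 2 = 1 := by
    intro z hz
    rw [frontier_ball (0 : ℂ) one_ne_zero, mem_sphere_zero_iff_norm] at hz
    rw [hsq, hz]; norm_num
  refine ⟨c, h, u0, u, contDiff_cub _ _ _ _, ?_, ?_, ⟨contDiff_cub _ _ _ _, ?_, ?_⟩, ?_,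
    ⟨contDiff_cub _ _ _ _, ?_, ?_⟩, ?_⟩
  · intro z hz
    rw [mem_closedBall_zero_iff] at hz
    have h1 : z.re ^ 2 + z.im ^ 2 ≤ 1 := by rw [hsq]; nlinarith [norm_nonneg z]
    have h0 : 0 ≤ z.re ^ 2 + z.im ^ 2 := by positivity
    unfold c cub
    set t := z.re ^ 2 + z.im ^ 2
    have h3 : t ^ 3 ≤ 1 := pow_le_one₀ h0 h1
    have h4 : 0 ≤ t ^ 2 := by positivity
    linarith
  · have h1 : ContDiff ℝ (⊤ : ℕ∞) (fun z : ℂ => z.re) := Complex.reCLM.contDiff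
    have h2 : ContDiff ℝ (⊤ : ℕ∞) (fun z : ℂ => z.im) := Complex.imCLM.contDiff
    unfold h cub
    fun_prop
  · intro z hz
    unfold u0 cub
    rw [hfr z hz]; norm_num
  · intro z _
    have h1 := lap_cub (2263 / 9000) (-(763 / 1500)) (1069 / 3000) (-(223 / 2250)) z
    have h2 := radial_norm_gradient (fun t => hasDerivAt_cub (2263 / 9000) (-(763 / 1500))
      (1069 / 3000) (-(223 / 2250)) t) z
    change - Δ u0 z = 0 * c z * u0 z + 1 * ‖gradient u0 z‖ ^ 2 + h z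
    unfold u0 h
    rw [h1, h2]
    ring
  · intro z hz
    rw [mem_ball_zero_iff] at hz
    have h1 : z.re ^ 2 + z.im ^ 2 < 1 := by rw [hsq]; nlinarith [norm_nonneg z]
    have h0 : 0 ≤ z.re ^ 2 + z.im ^ 2 := by positivity
    unfold u0 cub
    set t := z.re ^ 2 + z.im ^ 2
    have e : 2263 / 9000 + -(763 / 1500) * t + 1069 / 3000 * t ^ 2 + -(223 / 2250) * t ^ 3
        = (1 - t) * (2263 / 9000 - 463 / 1800 * t + 223 / 2250 * t ^ 2) := by ring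
    rw [e]
    apply mul_pos (by linarith)
    nlinarith [sq_nonneg t, sq_nonneg (1 - t)]
  · intro z hz
    unfold u cub
    rw [hfr z hz]; norm_num
  · intro z _
    have h1 := lap_cub (1 / 150) (-(1 / 50)) (1 / 75) 0 z
    have h2 := radial_norm_gradient (fun t => hasDerivAt_cub (1 / 150) (-(1 / 50)) (1 / 75) 0 t) z
    change - Δ u z = -1 * c z * u z + 1 * ‖gradient u z‖ ^ 2 + h z
    unfold u h c
    rw [h1, h2]
    unfold cub
    ring
  · refine ⟨((9 / 10 : ℝ) : ℂ), ?_, ?_⟩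
    · rw [mem_ball_zero_iff, Complex.norm_real]; norm_num
    · unfold u cub
      simp
      norm_num

lemma Solves.weak {c h u : ℂ → ℝ} {lam : ℝ} (hc : Continuous c) (hh : Continuous h)
    (hu : Solves (ball 0 1) c (fun _ => 1) h lam u) :
    Sol (ball 0 1) c (fun _ => 1) h lam ((ball (0 : ℂ) 1).indicator u) := by
  refine ⟨_, SolG.of_classical hu.1 (fun z hz => hu.2.1 z ?_) hc.continuousOn continuousOn_const
    hh.continuousOn hu.2.2⟩
  rw [frontier_ball (0 : ℂ) one_ne_zero, mem_sphere_zero_iff_norm]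
  exact hz

/-- The answer to Q1 is negative, with `N = 2`, `Ω` the unit disk, `μ = 1`, `λ = -1`: the functions
`u₀` and `u` are classical solutions, smooth up to the boundary, and (extended by zero) weak
solutions in `H¹₀ ∩ L^∞`. -/
theorem result : ∃ c h u₀ u : ℂ → ℝ,
    ContDiff ℝ (⊤ : ℕ∞) c ∧ (∀ z ∈ closedBall (0 : ℂ) 1, 0 < c z) ∧ ContDiff ℝ (⊤ : ℕ∞) h ∧
    Solves (ball 0 1) c (fun _ => 1) h 0 u₀ ∧
    Sol (ball 0 1) c (fun _ => 1) h 0 ((ball (0 : ℂ) 1).indicator u₀) ∧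
    (∀ z ∈ ball (0 : ℂ) 1, 0 < u₀ z) ∧
    Solves (ball 0 1) c (fun _ => 1) h (-1) u ∧
    Sol (ball 0 1) c (fun _ => 1) h (-1) ((ball (0 : ℂ) 1).indicator u) ∧
    ∃ z ∈ ball (0 : ℂ) 1, u z < 0 := by
  obtain ⟨c, h, u₀, u, hc, hcp, hh, h1, h2, h3, h4⟩ := classical
  exact ⟨c, h, u₀, u, hc, hcp, hh, h1, h1.weak hc.continuous hh.continuous, h2, h3,
    h3.weak hc.continuous hh.continuous, h4⟩

end Pool.Agent.Results.MP_ac8703_an.SignChanging
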